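import Pool.Agent.Lib.MP_8f56c4_lc.H3.Main

set_option autoImplicit false

namespace Pool.Agent.Results.MP_8f56c4_lc.Approximable

open Pool.Agent.Lib.MP_8f56c4_lc.H3

/-- Q1 in the form (H3): logarithmic approximability of SAT, or of any NP-hard set, implies,
hence is equivalent to, `P = NP`. -/
theorem result : List.TFAE [N68a2faeb.P = N68a2faeb.NP, LogApproximable SAT,
    ∃ A, (∀ L ∈ N68a2faeb.NP, N793a5b8e.ManyOneReducible L A) ∧ LogApproximable A] := by
  tfae_have 1 → 2 := (tfae.out 0 3).1
  tfae_have 2 → 3 := (tfae.out 3 4).1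
  tfae_have 3 → 1 := (tfae.out 4 0).1
  tfae_finish

end Pool.Agent.Results.MP_8f56c4_lc.Approximable
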