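import Pool.Agent.Lib.MP_8f56c4_lc.Enum

/-!
Hypothesis (H2), the equality of the function classes with parallel queries and with
logarithmically many adaptive queries to `NP`, holds exactly if `P = NP`.
-/

namespace Pool.Agent.Results.MP_8f56c4_lc.ParallelQueries

open N68a2faeb

/-- Functions computable in polynomial time with parallel queries to an `NP` oracle `A`: the list
`g x` of queries is computed from the input `x`, and the output is computed from `x` and the list
of answers. -/
def FPpar : Set (List Bool → List Bool) :=
  {f | ∃ A ∈ NP, ∃ (g : List Bool → List (List Bool)) (h : List Bool × List Bool → List Bool),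
    IsPolyTime g ∧ IsPolyTime h ∧ ∀ x, f x = h (x, (g x).map A)}

/-- Adaptive oracle computation.  Given the input `x` and the list `as` of the answers received
so far, `M (x, as) = (true, q)` asks the query `q` and `M (x, as) = (false, y)` stops with output
`y`.  The value `run M A x k as` is the output with oracle `A` if at most `k` further queries are
asked, and `none` otherwise. -/
def run (M : List Bool × List Bool → Bool × List Bool) (A : List Bool → Bool) (x : List Bool) :
    ℕ → List Bool → Option (List Bool)
  | 0, as => if (M (x, as)).1 then none else some (M (x, as)).2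
  | k + 1, as =>
    if (M (x, as)).1 then run M A x k (as ++ [A (M (x, as)).2]) else some (M (x, as)).2

/-- Functions computable in polynomial time with `O(log n)` adaptive queries to an `NP` oracle. -/
def FPlog : Set (List Bool → List Bool) :=
  {f | ∃ A ∈ NP, ∃ M : List Bool × List Bool → Bool × List Bool, IsPolyTime M ∧
    ∃ c : ℕ, ∀ x, run M A x (c * Nat.log 2 x.length + c) [] = some (f x)}

open Pool.Agent.Shared.PolyTime Pool.Agent.Lib.MP_8f56c4_lc Function

attribute [local fun_prop] PB.comp

theorem run_answers {M : List Bool × List Bool → Bool × List Bool} {A : List Bool → Bool}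
    {x y : List Bool} (k : ℕ) : ∀ as, run M A x k as = some y →
    ∃ bs : List Bool, bs.length ≤ as.length + k ∧ (M (x, bs)).2 = y := by
  induction k with
  | zero =>
    intro as h
    unfold run at h
    split_ifs at h
    exact ⟨as, le_rfl, Option.some.inj h⟩
  | succ k ih =>
    intro as h
    unfold run at h
    split_ifs at h
    · obtain ⟨bs, h1, h2⟩ := ih _ h
      exact ⟨bs, by simp at h1; omega, h2⟩
    · exact ⟨as, by omega, Option.some.inj h⟩

theorem run_iterate {M : List Bool × List Bool → Bool × List Bool} {A : List Bool → Bool}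
    {x y : List Bool} (k : ℕ) : ∀ as j, k ≤ j → run M A x k as = some y →
    (M (x, (fun as => cond (M (x, as)).1 (as ++ [A (M (x, as)).2]) as)^[j] as)).2 = y := by
  induction k with
  | zero =>
    intro as j _ h
    unfold run at h
    split_ifs at h with h1
    rw [iterate_fixed (by simp [h1])]
    exact Option.some.inj h
  | succ k ih =>
    intro as j hj h
    unfold run at h
    split_ifs at h with h1
    · obtain ⟨j, rfl⟩ : ∃ i, j = i + 1 := ⟨j - 1, by omega⟩
      rw [iterate_succ_apply]
      simpa [h1] using ih _ j (by omega) h
    · rw [iterate_fixed (by simp [h1])]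
      exact Option.some.inj h

theorem enum_of_log {f : List Bool → List Bool} (hf : f ∈ FPlog) :
    ∃ E : List Bool → List (List Bool), PT E ∧ ∀ x, f x ∈ E x := by
  obtain ⟨A, -, M, hM, c, h⟩ := hf
  replace hM := PT.ofIsPolyTime hM
  refine ⟨fun x => (List.range ((x.length + 1) ^ c * 2 ^ (c + 1))).map
    fun y => (M (x, y.bits.dropLast)).2, by fun_prop, fun x => ?_⟩
  obtain ⟨bs, h1, h2⟩ := run_answers _ _ (h x)
  refine List.mem_map.2 ⟨val (bs ++ [true]), List.mem_range.2 ((val_lt _).trans_le ?_), ?_⟩
  · calc 2 ^ (bs ++ [true]).length ≤ 2 ^ (Nat.log 2 x.length * c + (c + 1)) :=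
          Nat.pow_le_pow_right (by omega) (by simp at h1 ⊢; rw [mul_comm]; omega)
      _ = (2 ^ Nat.log 2 x.length) ^ c * 2 ^ (c + 1) := by rw [pow_add, pow_mul]
      _ ≤ _ := Nat.mul_le_mul_right _ (Nat.pow_le_pow_left (Nat.pow_log_le_add_one _ _) _)
  · simp [bits_val_true, h2]

theorem result : FPpar = FPlog ↔ P = NP := by
  constructor
  · intro H
    refine Set.Subset.antisymm P_subset_NP (NP_subset_P fun L hL g hg => enum_of_log ?_)
    rw [← H]
    exact ⟨L, hL, g, fun p => p.2, hg.isPolyTime, PT.isPolyTime (by fun_prop), fun _ => rfl⟩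
  · intro H
    ext f
    constructor
    · rintro ⟨A : List Bool → Bool, hA, g, h, hg, hh, hf⟩
      have h1 : PT A := PT.ofIsPolyTime (show A ∈ P from H ▸ hA)
      replace hg := PT.ofIsPolyTime hg
      replace hh := PT.ofIsPolyTime hh
      exact ⟨A, hA, fun p => (false, h (p.1, (g p.1).map A)), PT.isPolyTime (by fun_prop), 0,
        fun x => by simp [run, hf]⟩
    · rintro ⟨A : List Bool → Bool, hA, M, hM, c, hf⟩
      have h1 : PT A := PT.ofIsPolyTime (show A ∈ P from H ▸ hA)
      replace hM := PT.ofIsPolyTime hM
      have h2 := PT.iterate_grow (α := List Bool × List Bool)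
        (f := fun p as => cond (M (p.1, as)).1 (as ++ [A (M (p.1, as)).2]) as)
        (n := fun p => c * p.1.length + c) (s0 := fun _ => ([] : List Bool))
        (by fun_prop) (by fun_prop) (by fun_prop) (by fun_prop) (g := fun _ => 3) (by fun_prop)
        (fun p as => by cases (M (p.1, as)).1 <;> simp)
      refine ⟨A, hA, fun _ => [], _, PT.isPolyTime (PT.const _),
        PT.isPolyTime (hM.comp' ((PT.fst PT.id').pair h2)).snd, fun x => ?_⟩
      refine (run_iterate _ _ _ ?_ (hf x)).symm
      have := Nat.mul_le_mul_left c (Nat.log_le_self 2 x.length)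
      simp only
      omega

end Pool.Agent.Results.MP_8f56c4_lc.ParallelQueries
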